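import Pool.Agent.J6H49.ES.Search

/-!
# A complete total `NP` search problem, with `NP` far from `coNP`

If `NP = coNP` then there is a complete total `NP` search problem. We show that for relativizing
proofs there is no converse, in a strong form: there are oracles relative to which some total `NP`
search problem is complete, and nevertheless some language in `coNP` has no interactive proof with
polynomially many rounds and private coins (in particular it is not in `NP`), even if the proof must
work only for infinitely many input lengths and the verifier may ask questions to any set `T` of
subexponential density.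
-/

set_option autoImplicit false

namespace Pool.Agent.Results.MP_0a7732_lc.CompleteFarFromCollapse

open MeasureTheory Pool.Agent.NPC Pool.Agent.H628R3.RO Pool.Agent.J6H49.OP Pool.Agent.J6H49.IP
open Pool.Agent.TH678.GC (join)

/-- Let `C` be any oracle. There is a map `O` on the oracles such that

* for every `A`, `O A` contains `A` and `C`, and relative to `O A` there is a total `NP` search
  problem to which all total `NP` search problems reduce,
* for a random oracle `A` (fair coin tosses), with probability one, there is a language `L` in `coNP`
  relative to `O A` such that for every set `T` of subexponential density, `L` has no interactive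
  proof relative to `O A` and `T` which is correct for infinitely many input lengths. -/
theorem result (C : Oracle) : ∃ O : Oracle → Oracle,
    (∀ A, Contains (O A) A ∧ Contains (O A) C ∧
      ∃ R, IsTFNP (O A) R ∧ ∀ R', IsTFNP (O A) R' → RedSearch (O A) R' R) ∧
    ∀ᵐ A ∂randomOracle, ∃ L : Set (List Bool), IsCoNP (O A) L ∧
      ∀ T : Oracle, SubexpDense T → ¬ IsIPio (join (O A) T) L := by
  obtain ⟨O, h1, h2⟩ := Pool.Agent.J6H49.ES.world (fun n => 2 ^ n)
    (fun k => by
      obtain ⟨N, hN⟩ := Pool.Agent.J6H54.RO.poly_le_two_pow (Polynomial.X ^ k)
      filter_upwards [Filter.eventually_ge_atTop N] with n hn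
      have h := hN n hn
      simp only [Polynomial.eval_pow, Polynomial.eval_X] at h
      omega) C
  exact ⟨O, fun A => ⟨(h1 A).2.1, (h1 A).2.2.1, (h1 A).2.2.2.complete⟩, h2⟩

end Pool.Agent.Results.MP_0a7732_lc.CompleteFarFromCollapse
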