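import Pool.Agent.J6H49.OP.Main

/-!
# No complete total `NP` search problem although double exponential space is nearly double
exponential time

If `NP = coNP` then there is a complete total `NP` search problem. A similar proof, which also
relativizes, needs only that the second level of the hierarchy over `E`, time `2 ^ O(n)`, is
contained in `E` (for it is a question of this kind whether a search problem, with a time bound, is
total for the instances of a given length `n`, written in binary), or the same for the classes with
times `2 ^ O(2 ^ n)`. We show that for relativizing proofs this assumption cannot be weakened: for
an arbitrarily slowly growing unbounded function `α` there are oracles relative to which all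
problems in space `2 ^ O(2 ^ n)` are decided in deterministic time `2 ^ O(2 ^ n * α n)`, likewise
for space `2 ^ O(n)` and for polynomial space, and nevertheless there is no complete total `NP`
search problem.
-/

set_option autoImplicit false

namespace Pool.Agent.Results.MP_0a7732_lc.NearCollapseTFNP

open MeasureTheory Pool.Agent.NPC Pool.Agent.H628R3.RO Pool.Agent.J6H49.OP

/-- Let `α : ℕ → ℕ` be nondecreasing and unbounded and let `C` be any oracle. There is a map `O` on
the oracles such that `O A` contains `A` and `C` and is nearly collapsed with the function `α`, for
every `A`, and for a random oracle `A` (fair coin tosses) with probability one, relative to `O A` no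
total `NP` search problem is complete. -/
theorem result (α : ℕ → ℕ) (hα : Monotone α) (hα' : Filter.Tendsto α Filter.atTop Filter.atTop)
    (C : Oracle) : ∃ O : Oracle → Oracle,
      (∀ A, NearlyCollapsed α (O A) ∧ Contains (O A) A ∧ Contains (O A) C) ∧
      ∀ᵐ A ∂randomOracle, ¬ ∃ T : List Bool → List Bool → Prop, IsTFNP (O A) T ∧
        ∀ S, IsTFNP (O A) S → RedSearch (O A) S T := by
  obtain ⟨O, h1, -, -, h2⟩ := main α hα hα' C
  exact ⟨O, h1, h2⟩

end Pool.Agent.Results.MP_0a7732_lc.NearCollapseTFNP
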