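import Pool.Agent.J6H54.RO.FinF

/-!
# No complete total `NP` search problem relative to a random oracle

For almost all oracles `A` (membership of the strings in `A` is decided by independent tosses of a
fair coin): relative to `A` there is no complete total `NP` search problem.
-/

set_option autoImplicit false

namespace Pool.Agent.Results.MP_0a7732_lc.RandomOracleTFNP

open MeasureTheory Pool.Agent.NPC Pool.Agent.H628R3.RO

theorem result : ∀ᵐ A ∂randomOracle, ¬ ∃ T : List Bool → List Bool → Prop, IsTFNP A T ∧
    ∀ S, IsTFNP A S → RedSearch A S T :=
  Pool.Agent.J6H54.RO.final_F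

end Pool.Agent.Results.MP_0a7732_lc.RandomOracleTFNP
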