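import Pool.Agent.J6H56.TF.MainS

/-!
# Total `NP` search problems: no complete problem, even for Turing reductions with long advice

Relative to an oracle which is nearly collapsed (for example, polynomial space is contained in time
`n ^ O(α n)`, with an arbitrarily slowly growing function `α`) and which contains any given oracle
`C`, the following holds. For every total `NP` search problem `R` there is a total `NP` search
problem `R'` with unique solutions, of the length of the input, which is not solved with the help of
`R`: this fails, for infinitely many lengths `n`, for every polynomial-time machine which may ask
any number of questions about solutions of instances of `R`, and which has moreover random access to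
one out of `2 ^ ((n - k n) * 2 ^ n)` tables of advice, if `k` grows faster than the logarithm. With
`n * 2 ^ n` bits of advice, random access, one can solve `R'`, since this is the number of bits of
the list of all the solutions for the inputs of length `n`.

The proof: for the `i`-th search problem, there are blocks `(i, x)`, for all strings `x`, and each
block contains a secret string of length `|x|`, or none. If possible, one makes the `i`-th search
problem not total, and for this purpose secrets may be missing in the blocks `(i, x)`. If this is
not possible, then the search problem is total also in the worlds in which some secrets are missing,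
and its solutions can be chosen without knowledge of the secrets. A machine which finds all the
secrets of the blocks `(i, x)`, for `|x| = n`, must then guess each of them, apart from
polynomially many possibilities, and the number of the tables of secrets for which this is possible
with a given table of advice is at most `P n ^ 2 ^ n`, for a polynomial `P`.
-/

set_option autoImplicit false

namespace Pool.Agent.Results.MP_0a7732_lc.TuringWithAdvice

open Filter Pool.Agent.NPC Pool.Agent.H628R3.RO
open Pool.Agent.J6H49.OP (NearlyCollapsed Contains)
open Pool.Agent.TH678.GC (join)
open Pool.Agent.J6H56.TF (bits)

/-- The polynomial-time machine `M`, with the oracle `O`, with access to any function `t` which gives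
solutions of the instances of the search problem `R`, and with access to the table of advice `a`,
finds solutions of the search problem `R'` for all the inputs of length `n`. -/
def Solves (M : Alg) (O : Oracle) (R R' : List Bool → List Bool → Prop) (a : Oracle) (n : ℕ) :
    Prop :=
  ∀ t : List Bool → List Bool, (∀ z, R z (t z)) → ∀ x : List Bool, x.length = n →
    ∃ y, M.out (join O (join (bits t) a)) x = some y ∧ R' x y

/-- Let `α : ℕ → ℕ` be nondecreasing and unbounded, let `C` be an oracle and let `W n` be finite
sets of tables of advice, such that `|W n| * P n ^ 2 ^ n < 2 ^ (n * 2 ^ n)` for all polynomials `P`
and all large `n`. There is an oracle `O` which is nearly collapsed with the function `α` and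
contains `C`, such that, relative to `O`, for every total `NP` search problem `R` there is a total
`NP` search problem `R'` such that every instance `x` of `R'` has exactly one solution, the
solution has the length of `x`, and for every polynomial-time machine there are infinitely many `n`
such that the machine, with access to `O`, to the solutions of `R` and to a table of advice in
`W n`, does not find the solutions of `R'` for all the inputs of length `n`. -/
theorem result (α : ℕ → ℕ) (hα : Monotone α) (hα' : Tendsto α atTop atTop) (C : Oracle)
    (W : ℕ → Finset Oracle)
    (hW : ∀ P : Polynomial ℕ, ∀ᶠ n in atTop, (W n).card * P.eval n ^ 2 ^ n < 2 ^ (n * 2 ^ n)) :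
    ∃ O : Oracle, NearlyCollapsed α O ∧ Contains O C ∧
      ∀ R, IsTFNP O R → ∃ R', IsTFNP O R' ∧ (∀ x, ∃! y, R' x y) ∧
        (∀ x y, R' x y → y.length = x.length) ∧
        ∀ M : Alg, ∃ᶠ n in atTop, ∀ a ∈ W n, ¬ Solves M O R R' a n := by
  obtain ⟨O, h1, h2, h3⟩ := Pool.Agent.J6H56.TF.mainS α hα hα' C W hW
  refine ⟨O, h1, h2, fun R hR => ?_⟩
  obtain ⟨R', h4, h5, h6, h7⟩ := h3 R hR
  refine ⟨R', h4, h5, h6, fun M => (h7 M).mono fun n hn a ha hs => ?_⟩
  obtain ⟨x, hx, t, ht, h8⟩ := hn a ha
  obtain ⟨y, hy1, hy2⟩ := hs t ht x hx
  exact h8 y hy1 hy2

end Pool.Agent.Results.MP_0a7732_lc.TuringWithAdvice
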